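import Pool.Agent.TH702.SG.Imm

/-!
# Two-coloured schemes in Kneser, Schrijver and stable Kneser graphs

For `s ≥ 2`, `k ≥ 1` and `n ≥ s k`, let `N = n - s(k-1)`.  The `s`-stable Kneser graph, the almost
`s`-stable Kneser graph and, for `s = 2`, the Kneser graph have a natural proper colouring with
`N` colours, given by the largest element (for the Kneser graph the largest element or `2k-2`,
whichever is larger).  We find one vertex `x_m` of each colour `m` such that `x_m` and `x_{m'}` are
joined by a path all of whose vertices have colour `m` or `m'`.  Such paths form an `N`-scheme.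
-/

namespace Pool.Agent.Results.MP_950ff6_co.TwoColouredSchemes

open Pool.Agent.TH702.SG Finset

/-- An `r`-scheme: `r` distinct vertices `x i` and for every `i < j` a path from `x i` to `x j`,
such that the paths of `i < j` and `h < l` with `i, j, h, l` distinct have no common vertex. -/
def HasScheme {V : Type*} (G : SimpleGraph V) (r : ℕ) : Prop :=
  ∃ x : Fin r → V, Function.Injective x ∧
    ∃ P : (i j : Fin r) → G.Walk (x i) (x j),
      (∀ i j : Fin r, i < j → (P i j).IsPath) ∧
      (∀ i j h l : Fin r, i < j → h < l → i ≠ h → i ≠ l → j ≠ h → j ≠ l →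
        ∀ v : V, v ∈ (P i j).support → v ∉ (P h l).support)

/-- A two-coloured (chromatic) `r`-scheme: a proper colouring `C` with `r` colours and an
`r`-scheme such that `x i` has colour `i` and the vertices of the path `P i j`, `i < j`, have the
colours `i` and `j` only. -/
def HasChromaticScheme {V : Type*} (G : SimpleGraph V) (r : ℕ) : Prop :=
  ∃ C : G.Coloring (Fin r), ∃ x : Fin r → V, Function.Injective x ∧ (∀ i, C (x i) = i) ∧
    ∃ P : (i j : Fin r) → G.Walk (x i) (x j),
      (∀ i j : Fin r, i < j → (P i j).IsPath) ∧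
      (∀ i j : Fin r, i < j → ∀ v ∈ (P i j).support, C v = i ∨ C v = j) ∧
      (∀ i j h l : Fin r, i < j → h < l → i ≠ h → i ≠ l → j ≠ h → j ≠ l →
        ∀ v : V, v ∈ (P i j).support → v ∉ (P h l).support)

lemma scheme_of_linked {V : Type*} {G : SimpleGraph V} {r : ℕ} (h : HasLinkedSystem G r) :
    HasScheme G r := by
  obtain ⟨f, p, h1, -, -, h4⟩ := h
  exact ⟨f, f.injective, p, h1, fun i j h l a b c d e g v hv => h4 i j h l a b c d e g v hv⟩

/-- The two-coloured paths of the interlacing graph. -/
lemma two_coloured {s n k : ℕ} (hs : 2 ≤ s) (hk : 1 ≤ k) (hn : s * k ≤ n) :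
    ∃ x : Fin (n - s * (k - 1)) → StableSet s n k, (∀ i, top (x i) = s * (k - 1) + i.1) ∧
      ∀ i j, i < j → (classGraph (interlacingGraph s n k) top (s * (k - 1) + i.1)
        (s * (k - 1) + j.1)).Reachable (x i) (x j) := by
  have hs' : 1 ≤ s := by omega
  have hlo : ∀ i : Fin (n - s * (k - 1)), s * (k - 1) ≤ s * (k - 1) + i.1 := fun i => by omega
  have hhi : ∀ i : Fin (n - s * (k - 1)), s * (k - 1) + i.1 < n := fun i => by
    have := i.2; omega
  refine ⟨fun i => vert hs' (good_B hs hk hn (hlo i) (hhi i)),
    (fun i => (top_vert hs' hk _).trans (gB_top hk (hlo i))), ?_⟩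
  intro i j hij
  have hij' : i.1 < j.1 := hij
  rcases Nat.lt_or_ge (s * (k - 1) + i.1 + 1) (s * k) with h | h
  · refine SimpleGraph.Adj.reachable ⟨adj_PB hs hs' hk (hlo i) h (by omega) _ _, Or.inl ⟨?_, ?_⟩⟩
    · exact (top_vert hs' hk _).trans (gB_top hk (hlo i))
    · exact (top_vert hs' hk _).trans (gB_top hk (hlo j))
  · have hW : Good s n k (gW s k (s * (k - 1) + i.1)) := good_W' hs hk h (hhi i)
    have hW' : Good s n k (gW s k (s * (k - 1) + j.1)) := good_W' hs hk (by omega) (hhi j)
    have e1 : vert hs' (good_B hs hk hn (hlo i) (hhi i)) = vert hs' hW := by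
      refine Subtype.ext ?_
      have : gB s k (s * (k - 1) + i.1) = gW s k (s * (k - 1) + i.1) := by
        unfold gB
        rw [if_neg (by omega)]
      exact congrArg (im k) this
    have e2 : vert hs' (good_B hs hk hn (hlo j) (hhi j)) = vert hs' hW' := by
      refine Subtype.ext ?_
      have : gB s k (s * (k - 1) + j.1) = gW s k (s * (k - 1) + j.1) := by
        unfold gB
        rw [if_neg (by omega)]
      exact congrArg (im k) this
    simp only [e1, e2]
    exact reach_WW hs hs' hk h (by omega) (hhi j) hW hW'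

/-- Transfer to a graph with a compatible colouring. -/
lemma chromatic_of {s n k : ℕ} (hs : 2 ≤ s) (hk : 1 ≤ k) (hn : s * k ≤ n) {V : Type*}
    {G : SimpleGraph V} (e : interlacingGraph s n k →g G)
    (C : G.Coloring (Fin (n - s * (k - 1))))
    (hC : ∀ X, s * (k - 1) + (C (e X)).1 = top X) :
    HasChromaticScheme G (n - s * (k - 1)) := by
  classical
  obtain ⟨x, hx, hr⟩ := two_coloured hs hk hn
  have hCx : ∀ i, C (e (x i)) = i := fun i => Fin.ext (by have := hC (x i); rw [hx] at this; omega)
  set c : V → ℕ := fun v => (C v).1 with hc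
  have hle : ∀ a b, classGraph G c a b ≤ G := fun a b _ _ h => h.1
  have hr' : ∀ i j, i < j → (classGraph G c i.1 j.1).Reachable (e (x i)) (e (x j)) := by
    intro i j hij
    let φ : classGraph (interlacingGraph s n k) top (s * (k - 1) + i.1) (s * (k - 1) + j.1) →g
        classGraph G c i.1 j.1 :=
      { toFun := e
        map_rel' := by
          intro a b hab
          have ha := hC a
          have hb := hC b
          refine ⟨e.map_adj hab.1, ?_⟩
          rcases hab.2 with h | h
          · refine Or.inl ⟨?_, ?_⟩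
            · change (C (e a)).1 = i.1
              omega
            · change (C (e b)).1 = j.1
              omega
          · refine Or.inr ⟨?_, ?_⟩
            · change (C (e a)).1 = j.1
              omega
            · change (C (e b)).1 = i.1
              omega }
    exact (hr i j hij).map φ
  have hreach : ∀ i j, G.Reachable (e (x i)) (e (x j)) := by
    intro i j
    rcases lt_trichotomy i j with h | h | h
    · exact (hr' i j h).mono (hle _ _)
    · rw [h]
    · exact ((hr' j i h).mono (hle _ _)).symm
  have key : ∀ i j, ∃ w : G.Walk (e (x i)) (e (x j)), i < j →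
      (w.IsPath ∧ ∀ v ∈ w.support, C v = i ∨ C v = j) := by
    intro i j
    by_cases hij : i < j
    · obtain ⟨q, hq⟩ := (hr' i j hij).exists_isPath
      refine ⟨q.mapLe (hle _ _), fun _ => ⟨hq.mapLe _, ?_⟩⟩
      intro v hv
      rw [SimpleGraph.Walk.support_mapLe_eq_support] at hv
      rcases support_class q (Or.inl (by rw [hc]; exact congrArg Fin.val (hCx i))) v hv with h | h
      · exact Or.inl (Fin.ext h)
      · exact Or.inr (Fin.ext h)
    · exact ⟨(hreach i j).some, fun h => absurd h hij⟩
  choose P hP using key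
  refine ⟨C, fun i => e (x i), fun i j hij => ?_, hCx, P, fun i j hij => (hP i j hij).1,
    fun i j hij => (hP i j hij).2, ?_⟩
  · have hij : e (x i) = e (x j) := hij
    rw [← hCx i, ← hCx j, hij]
  · intro i j h l hij hhl a b c' d v hv hv'
    rcases (hP i j hij).2 v hv with h1 | h1 <;> rcases (hP h l hhl).2 v hv' with h2 | h2
    · exact a (h1.symm.trans h2)
    · exact b (h1.symm.trans h2)
    · exact c' (h1.symm.trans h2)
    · exact d (h1.symm.trans h2)

/-- The colouring by the largest element. -/
lemma path_colouring {s n k : ℕ} (hk : 1 ≤ k) :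
    ∃ C : (pathStableKneserGraph s n k).Coloring (Fin (n - s * (k - 1))),
      ∀ X, s * (k - 1) + (C X).1 = X.1.sup id := by
  obtain ⟨K, rfl⟩ : ∃ K, k = K + 1 := ⟨k - 1, by omega⟩
  have hne : ∀ X : PathStableSet s n (K + 1), X.1.Nonempty := by
    intro X
    rw [← Finset.card_pos, X.2.2.1]; omega
  have hge : ∀ X : PathStableSet s n (K + 1), s * (K + 1 - 1) ≤ X.1.sup id := by
    intro X
    exact stable_card K (X.1.sup id) X.1 X.2.2.1
      (fun x hx => Finset.le_sup (f := id) hx) X.2.2.2
  have hmem : ∀ X : PathStableSet s n (K + 1), X.1.sup id ∈ X.1 := by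
    intro X
    obtain ⟨x, hx, hxs⟩ := Finset.exists_mem_eq_sup X.1 (hne X) id
    rw [hxs]
    exact hx
  have hlt : ∀ X : PathStableSet s n (K + 1),
      X.1.sup id - s * (K + 1 - 1) < n - s * (K + 1 - 1) := by
    intro X
    have h1 := hge X
    have h2 := mem_range.1 (X.2.1 (hmem X))
    omega
  refine ⟨SimpleGraph.Coloring.mk (fun X => ⟨X.1.sup id - s * (K + 1 - 1), hlt X⟩) ?_, ?_⟩
  · intro X Y hXY heq
    have hd : Disjoint X.1 Y.1 := hXY.2
    have heq' : X.1.sup id - s * (K + 1 - 1) = Y.1.sup id - s * (K + 1 - 1) :=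
      congrArg Fin.val heq
    have h1 := hge X
    have h2 := hge Y
    have h3 : X.1.sup id = Y.1.sup id := by omega
    exact (Finset.disjoint_left.1 hd (hmem X)) (h3 ▸ hmem Y)
  · intro X
    have h1 := hge X
    change s * (K + 1 - 1) + (X.1.sup id - s * (K + 1 - 1)) = X.1.sup id
    omega

/-- The standard colouring of the Kneser graph. -/
lemma kneser_colouring {n k : ℕ} (hk : 1 ≤ k) (hn : 2 * k ≤ n) :
    ∃ C : (kneserGraph n k).Coloring (Fin (n - 2 * (k - 1))),
      ∀ X, (C X).1 = X.1.sup id - 2 * (k - 1) := by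
  have hlt : ∀ X : {X : Finset ℕ // X ⊆ range n ∧ X.card = k},
      X.1.sup id - 2 * (k - 1) < n - 2 * (k - 1) := by
    intro X
    have : X.1.sup id < n := by
      rw [Finset.sup_lt_iff (by simp only [bot_eq_zero']; omega)]
      intro x hx
      exact mem_range.1 (X.2.1 hx)
    omega
  refine ⟨SimpleGraph.Coloring.mk (fun X => ⟨X.1.sup id - 2 * (k - 1), hlt X⟩) ?_,
    fun X => rfl⟩
  intro X Y hXY heq
  have hd : Disjoint X.1 Y.1 := hXY.2
  have heq' : X.1.sup id - 2 * (k - 1) = Y.1.sup id - 2 * (k - 1) := congrArg Fin.val heq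
  have hneX : X.1.Nonempty := by
    rw [← Finset.card_pos, X.2.2]; exact hk
  have hneY : Y.1.Nonempty := by
    rw [← Finset.card_pos, Y.2.2]; exact hk
  obtain ⟨x, hx, hxs⟩ := Finset.exists_mem_eq_sup X.1 hneX id
  obtain ⟨y, hy, hys⟩ := Finset.exists_mem_eq_sup Y.1 hneY id
  simp only [id] at hxs hys
  rcases Nat.lt_or_ge (2 * (k - 1)) (X.1.sup id) with h | h
  · have : x = y := by omega
    subst this
    exact (Finset.disjoint_left.1 hd hx) hy
  · have h' : Y.1.sup id ≤ 2 * (k - 1) := by omega
    have hsub : X.1 ∪ Y.1 ⊆ range (2 * k - 1) := by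
      intro z hz
      rw [mem_range]
      rcases mem_union.1 hz with hz | hz
      · have : z ≤ X.1.sup id := Finset.le_sup (f := id) hz
        omega
      · have : z ≤ Y.1.sup id := Finset.le_sup (f := id) hz
        omega
    have hcard := Finset.card_le_card hsub
    rw [Finset.card_union_of_disjoint hd, X.2.2, Y.2.2, card_range] at hcard
    omega

/-- The identity, as a homomorphism to the `s`-stable Kneser graph. -/
def toStable (s n k : ℕ) : interlacingGraph s n k →g stableKneserGraph s n k :=
  ⟨fun X => X, fun {_ _} h => ⟨h.1, h.2.1⟩⟩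

/-- Forgetting the condition on the largest and the smallest element. -/
def toPath (s n k : ℕ) : stableKneserGraph s n k →g pathStableKneserGraph s n k :=
  ⟨fun X => ⟨X.1, X.2.1, X.2.2.1, fun x hx y hy h => (X.2.2.2 x hx y hy h).1⟩,
    fun {_ _} h => ⟨fun he => h.1 (Subtype.ext (Subtype.mk.inj he)), h.2⟩⟩

/-- Forgetting the stability. -/
def toKneser (s n k : ℕ) : interlacingGraph s n k →g kneserGraph n k :=
  ⟨fun X => ⟨X.1, X.2.1, X.2.2.1⟩,
    fun {_ _} h => ⟨fun he => h.1 (Subtype.ext (Subtype.mk.inj he)), h.2.1⟩⟩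

lemma le_top {s n k : ℕ} (hk : 1 ≤ k) (X : StableSet s n k) : s * (k - 1) ≤ top X := by
  obtain ⟨K, rfl⟩ : ∃ K, k = K + 1 := ⟨k - 1, by omega⟩
  exact stable_card K (X.1.sup id) X.1 X.2.2.1 (fun x hx => Finset.le_sup (f := id) hx)
    (fun x hx y hy h => (X.2.2.2 x hx y hy h).1)

universe u

/-- Let `s ≥ 2`, `k ≥ 1`, `n ≥ s k` and `N = n - s(k-1)`.

(1)-(3) The `s`-stable Kneser graph (the Schrijver graph `SG(n,k)` for `s = 2`), the almost
`s`-stable Kneser graph and, for `s = 2`, the Kneser graph `KG(n,k)` have a two-coloured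
`N`-scheme: a proper colouring with `N` colours, a vertex `x i` of every colour `i`, and for every
`i < j` a path from `x i` to `x j` with the colours `i` and `j` only.

(4) Every graph `G` with `χ(G) = r` that contains the interlacing graph of the `s`-stable
`k`-subsets of the `n`-cycle and has a homomorphism to the almost `s`-stable Kneser graph or, for
`s = 2`, to the Kneser graph `KG(n,k)`, has an `r`-scheme. -/
theorem result (s n k : ℕ) (hs : 2 ≤ s) (hk : 1 ≤ k) (hn : s * k ≤ n) :
    HasChromaticScheme (stableKneserGraph s n k) (n - s * (k - 1)) ∧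
    HasChromaticScheme (pathStableKneserGraph s n k) (n - s * (k - 1)) ∧
    (s = 2 → HasChromaticScheme (kneserGraph n k) (n - s * (k - 1))) ∧
    (∀ (V : Type u) (G : SimpleGraph V), (interlacingGraph s n k).IsContained G →
      (Nonempty (G →g pathStableKneserGraph s n k) ∨
        (s = 2 ∧ Nonempty (G →g kneserGraph n k))) →
      ∀ r : ℕ, G.chromaticNumber = (r : ℕ∞) → HasScheme G r) := by
  obtain ⟨C, hC⟩ := path_colouring (s := s) (n := n) hk
  refine ⟨?_, ?_, ?_, ?_⟩
  · exact chromatic_of hs hk hn (toStable s n k) (C.comp (toPath s n k)) fun X => hC _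
  · exact chromatic_of hs hk hn ((toPath s n k).comp (toStable s n k)) C fun X => hC _
  · rintro rfl
    obtain ⟨C', hC'⟩ := kneser_colouring hk hn
    refine chromatic_of hs hk hn (toKneser 2 n k) C' fun X => ?_
    have h1 := le_top hk X
    have h2 := hC' ((toKneser 2 n k) X)
    have h3 : ((toKneser 2 n k) X).1.sup id = top X := rfl
    rw [h3] at h2
    omega
  · intro V G hG hor r hr
    have hc : G.Colorable (n - s * (k - 1)) := by
      rcases hor with ⟨⟨g⟩⟩ | ⟨rfl, ⟨g⟩⟩
      · exact (pathStable_colorable hk hn).of_hom g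
      · exact (kneser_colorable hk hn).of_hom g
    have hle := hc.chromaticNumber_le
    rw [hr] at hle
    exact scheme_of_linked (((interlacing_linked hs hk hn).of_isContained hG).mono
      (by exact_mod_cast hle))

end Pool.Agent.Results.MP_950ff6_co.TwoColouredSchemes
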